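import Pool.Agent.Y540.NadD

/-!
# MP_68df70_lc: the average `N`-adic complexity of finite sequences is `n / 2 + O(1)`

The fractions `f / g` whose expansion begins with the digits `a_0, …, a_{n-1}` are the vectors
`(f, g)` of the lattice `f ≡ g A (mod N ^ n)` with `g` prime to `N`. Few `A` have a short such
vector (lower bound). For the upper bound one takes a shortest vector `v` of the lattice and a
second one `w` with `det (v, w) = N ^ n`, of length at most `2 N ^ n / |v|`; among `w + i v`,
`0 ≤ i < J(N)`, there is a vector with denominator prime to `N`, and few `A` have a very short `v`.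
-/

set_option autoImplicit false

namespace Pool.Agent.Results.MP_68df70_lc.HalfLength

open Pool.Agent.Y540.Nad

/-- **The average `N`-adic complexity of finite sequences of length `n` is `n / 2 + O(1)`.**
The first three clauses describe the complexity: its value for a sequence which represents
a fraction, its value `∞` for the others, and that the minimum over the extensions of a finite
sequence is attained and finite. The last clause gives the average; `jac N` is Jacobsthal's
function. -/
theorem result (N : ℕ) (hN : 2 ≤ N) :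
    (∀ (b : ℕ → Fin N) (f g : ℤ), IsFrac N b f g →
      lam N b = ((Real.logb N (max |(f : ℝ)| |(g : ℝ)|) : ℝ) : EReal)) ∧
    (∀ b : ℕ → Fin N, (¬ ∃ f g, IsFrac N b f g) → lam N b = ⊤) ∧
    (∀ (n : ℕ) (a : Fin n → Fin N), ∃ b : ℕ → Fin N, (∀ i : Fin n, b i = a i) ∧
      lam N b = lamFin N n a ∧ lamFin N n a ≠ ⊤ ∧ 0 ≤ lamFin N n a) ∧
    (∀ n : ℕ, (n : ℝ) / 2 - Real.log 4 / Real.log N ≤ Efin N n ∧
      Efin N n ≤ (n : ℝ) / 2 + (Real.log 7 + Real.log (jac N + 1)) / Real.log N ∧
      |Efin N n - (n : ℝ) / 2| ≤ 5) ∧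
    jac N ≤ N ∧ (IsPrimePow N → jac N ≤ 2) := by
  refine ⟨fun b f g h => lam_eq hN h, fun b h => lam_top h, fun n a => ?_, fun n =>
    ⟨(bounds N n hN).1, (bounds N n hN).2, bound5 N n hN⟩, (jac_spec N (by omega)).2, ?_⟩
  · obtain ⟨h1, b, hb, h2⟩ := lamFin_eq N n hN a
    refine ⟨b, hb, h2, ?_, ?_⟩
    · rw [h1]
      exact EReal.coe_ne_top _
    · rw [h1]
      have h3 := sz_pos N ((N ^ n : ℕ) : ℤ) (vala N n a)
      exact EReal.coe_nonneg.2 (Real.logb_nonneg (by exact_mod_cast (by omega : 1 < N))
        (by exact_mod_cast h3))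
  · rintro ⟨p, k, hp, -, rfl⟩
    exact jac_prime_pow p k hp.nat_prime

end Pool.Agent.Results.MP_68df70_lc.HalfLength
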